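import Mathlib
import Pool.Agent.Q264.Salem6c

open Polynomial

namespace Pool.Agent.Results.MP_9c9d6b_nt.Disproof

open Q264.Salem6

/-- There is a Salem number `β` of degree 6, with minimal polynomial
`x^6 - 10x^5 - 6x^4 + 3x^3 - 6x^2 - 10x + 1`, whose greedy beta expansion of `1` has preperiod
length `1` and period length `32`, and whose co-factor `Q` (the polynomial with
`P_33 - P_1 = minpoly * Q`) is not reciprocal. -/
theorem result : ∃ β : ℝ, IsSalem β ∧
    minpoly ℤ β = X ^ 6 - 10 * X ^ 5 - 6 * X ^ 4 + 3 * X ^ 3 - 6 * X ^ 2 - 10 * X + 1 ∧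
    (minpoly ℤ β).natDegree = 6 ∧
    IsPreperiodPeriod β 1 32 ∧
    ∃ Q : ℤ[X], companion β 1 32 = minpoly ℤ β * Q ∧ Q.natDegree = 27 ∧ Q.reverse ≠ Q := by
  obtain ⟨β, hβ, hlo, hhi⟩ := exists_beta
  have hmin := minpoly_eq hβ
  have hD := fun i h => digits hlo hhi i h
  have hc := companion_eq hD
  have h2 : 2 < β := by
    by_contra h
    push Not at h
    have : (10 : ℝ) ^ 48 * β ≤ 10 ^ 48 * 2 := by
      apply mul_le_mul_of_nonneg_left h (by positivity)
    have h3 := hlo.trans this
    norm_num at h3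
  refine ⟨β, isSalem hβ h2, hmin, by rw [hmin]; exact P6_natDegree, ?_, Q27, ?_, ?_,
    Q27_not_reciprocal⟩
  · apply prePer hD
    apply perAt_of_rem
    have h4 := aeval_Pk β (1 + 32)
    have h5 := aeval_Pk β 1
    have h6 : aeval β (companion β 1 32) = 0 := by
      rw [hc, map_mul]
      have : aeval β P6 = 0 := by rw [← hmin]; exact minpoly.aeval ℤ β
      rw [this, zero_mul]
    rw [companion, map_sub, h4, h5] at h6
    linarith
  · rw [hmin]; exact hc
  · unfold Q27; compute_degree!

end Pool.Agent.Results.MP_9c9d6b_nt.Disproof
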